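import Mathlib
import Pool.Agent.X217.Enl

/-!
# Divisibility of ultrafilters need not extend to all generators of the upper one (MP_c54df4_lc)
-/

namespace Pool.Agent.Results.MP_c54df4_lc.NotAllDivisible

open Filter Set Pool.Agent.X217.Enl
open scoped Cardinal

/-- The levels of the superstructure over the positive integers: the next level consists of the
elements and of the subsets of the previous one. -/
def Sup : ℕ → Type
  | 0 => ℕ+
  | n + 1 => Sup n ⊕ Set (Sup n)

/-- The (bounded) ultrapower of the superstructure by `W` is an enlargement: every family of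
standard sets (subsets of some level) with the finite intersection property has a common
element in the intersection of its extensions. -/
def IsEnlargement {I : Type} (W : Ultrafilter I) : Prop :=
  ∀ (n : ℕ) (𝒜 : Set (Set (Sup n))),
    (∀ T : Finset (Set (Sup n)), (T : Set (Set (Sup n))) ⊆ 𝒜 →
      (⋂₀ (T : Set (Set (Sup n)))).Nonempty) →
    (⋂ A ∈ 𝒜, star W A).Nonempty

/-- For every cardinal `κ` there is an ultrapower of the superstructure over the positive integers
which is an enlargement, also for all families of at most `κ` subsets of an arbitrary set, together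
with ultrafilters `F ∣~ G` and an element `y` of the monad of `G` that is divisible by
no element of the monad of `F`. -/
theorem result : ∀ κ : Cardinal.{0}, ∃ (I : Type) (W : Ultrafilter I),
    IsEnlargement W ∧ Enlarging κ W ∧ ∃ F G : Ultrafilter ℕ+, TDvd F G ∧
      ∃ y ∈ monad W G, ∀ x ∈ monad W F, ¬ x ∣ y := by
  classical
  intro κ
  let κ' : Cardinal.{0} := max κ #(Σ n : ℕ, Set (Set (Sup n)))
  let Y : Type := Quotient.out κ'
  have hY : #Y = max κ #(Σ n : ℕ, Set (Set (Sup n))) := Cardinal.mk_out κ'
  have hE : Enlarging (max κ #(Σ n : ℕ, Set (Set (Sup n)))) (WW Y) := hY ▸ WW_enlarging Y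
  have hE1 : Enlarging κ (WW Y) := fun X 𝒜 h => hE X 𝒜 (h.trans (le_max_left _ _))
  have hE2 : IsEnlargement (WW Y) := by
    intro n 𝒜 h𝒜
    have hc : #𝒜 ≤ #(Σ n : ℕ, Set (Set (Sup n))) := (Cardinal.mk_set_le 𝒜).trans
      (Cardinal.mk_le_of_injective
        (f := fun s : Set (Sup n) => (⟨n, {s}⟩ : Σ n : ℕ, Set (Set (Sup n))))
        (fun a b h => by
          have h' := eq_of_heq (Sigma.mk.inj h).2
          exact singleton_injective h'))
    obtain ⟨x, hx⟩ := hE (Sup n) 𝒜 (hc.trans (le_max_right _ _)) h𝒜
    exact ⟨x, mem_iInter₂.2 hx⟩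
  refine ⟨_, WW Y, hE2, hE1, EE.map b, (hyperfilter ℕ).map (fun n => P n ^ n), ?_, ?_⟩
  · intro A hA
    have hA' : {x : ℕ × ℕ | b x ∈ A} ∈ EE := hA
    show {n : ℕ | ∃ a ∈ A, a ∣ P n ^ n} ∈ hyperfilter ℕ
    refine mem_of_superset (EE_fst' hA') ?_
    rintro n ⟨j, hj, hb⟩
    exact ⟨b (n, j), hb, pow_dvd_pow _ hj⟩
  · refine ⟨((fun ns : ℕ × Finset Y => P ns.1 ^ ns.1) : ℕ × Finset Y → ℕ+), ?_, ?_⟩
    · intro A hA
      have hA' : {n : ℕ | P n ^ n ∈ A} ∈ hyperfilter ℕ := hA
      show {n : ℕ | {s : Finset Y | P n ^ n ∈ A} ∈ V0 Y} ∈ hyperfilter ℕ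
      refine mem_of_superset hA' fun n hn => ?_
      exact mem_of_superset univ_mem fun s _ => hn
    · intro x
      induction x using Filter.Germ.inductionOn with
      | _ g =>
        intro hg hdvd
        obtain ⟨z, hz⟩ := hdvd
        induction z using Filter.Germ.inductionOn with
        | _ z =>
          -- the divisibility holds almost everywhere
          have h1 : ∀ᶠ ns in (WW Y : Filter (ℕ × Finset Y)), g ns ∣ P ns.1 ^ ns.1 := by
            have h2 : (fun ns : ℕ × Finset Y => P ns.1 ^ ns.1)
                =ᶠ[(WW Y : Filter (ℕ × Finset Y))] fun ns => g ns * z ns :=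
              Filter.Germ.coe_eq.1 hz
            filter_upwards [h2] with ns hns
            exact ⟨z ns, hns⟩
          have h4 : {n | {s | g (n, s) ∣ P n ^ n} ∈ V0 Y} ∈ hyperfilter ℕ := mem_WW.1 h1
          -- for a fixed `n` the value is constant on a large set
          have h5 : ∀ n, {s | g (n, s) ∣ P n ^ n} ∈ V0 Y →
              ∃ d : ℕ+, d ∣ P n ^ n ∧ {s | g (n, s) = d} ∈ V0 Y := by
            intro n hn
            have h6 : {v : ℕ+ | v ∣ P n ^ n} ∈ (V0 Y).map fun s => g (n, s) := hn
            have h7 : {v : ℕ+ | v ∣ P n ^ n}.Finite := by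
              refine (Set.finite_Iic (P n ^ n)).subset fun v hv => ?_
              exact PNat.le_of_dvd hv
            obtain ⟨v, hv1, hv⟩ := Ultrafilter.eq_pure_of_finite_mem h7 h6
            refine ⟨v, hv1, ?_⟩
            have : {v} ∈ (V0 Y).map fun s => g (n, s) := by
              rw [hv]; exact mem_singleton _
            exact this
          -- choose the constants and their exponents
          let d : ℕ → ℕ+ := fun n =>
            if h : ∃ d : ℕ+, d ∣ P n ^ n ∧ {s | g (n, s) = d} ∈ V0 Y then h.choose else 1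
          have hd : ∀ n, {s | g (n, s) ∣ P n ^ n} ∈ V0 Y →
              d n ∣ P n ^ n ∧ {s | g (n, s) = d n} ∈ V0 Y := by
            intro n hn
            have hex := h5 n hn
            have : d n = hex.choose := dif_pos hex
            rw [this]
            exact hex.choose_spec
          let c : ℕ → ℕ := fun n => if h : ∃ j, b (n, j) = d n then h.choose else 0
          have hc : ∀ n j, b (n, j) = d n → j = c n := by
            intro n j hj
            have hex : ∃ j, b (n, j) = d n := ⟨j, hj⟩
            have h8 : c n = hex.choose := dif_pos hex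
            have h9 := hex.choose_spec
            rw [← h8] at h9
            have h10 := P_pow_inj (hj.trans h9.symm)
            show j = c n
            omega
          have hA : {v | ∃ x : ℕ × ℕ, x.2 ≠ c x.1 ∧ v = b x} ∈ EE.map b := by
            show {x | _} ∈ EE
            exact mem_of_superset (EE_graph c) fun x hx => ⟨x, hx, rfl⟩
          have h8 : ∀ᶠ ns in (WW Y : Filter (ℕ × Finset Y)), ∃ x : ℕ × ℕ, x.2 ≠ c x.1 ∧ g ns = b x :=
            hg _ hA
          have h9 : {n | {s | ∃ x : ℕ × ℕ, x.2 ≠ c x.1 ∧ g (n, s) = b x} ∈ V0 Y} ∈ hyperfilter ℕ :=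
            mem_WW.1 h8
          obtain ⟨n, hn1, hn2⟩ := (hyperfilter ℕ).nonempty_of_mem (inter_mem h4 h9)
          have hn2' : {s | ∃ x : ℕ × ℕ, x.2 ≠ c x.1 ∧ g (n, s) = b x} ∈ V0 Y := hn2
          obtain ⟨hdd, hds⟩ := hd n hn1
          obtain ⟨s, hs1, ⟨⟨m, j⟩, hx, hs2⟩⟩ := (V0 Y).nonempty_of_mem (inter_mem hds hn2')
          have hs3 : d n = b (m, j) := hs1.symm.trans hs2
          have hmn : m = n := P_dvd_pow (n := m) (m := n) (j := n) (by
            refine dvd_trans ?_ hdd
            rw [hs3]
            exact dvd_pow_self _ (Nat.succ_ne_zero _))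
          subst hmn
          exact hx (hc m j hs3.symm)

end Pool.Agent.Results.MP_c54df4_lc.NotAllDivisible
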